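import Mathlib
import Pool.Agent.Run7.h643.MW.Runs
import Pool.Agent.Run7.h643.MW.Mix
import Pool.Agent.R351.GD.S.AllW
import Pool.Agent.Y916.Sl.Lim

/-!
# Generalised logarithms of the points over consecutive primes in bounded intervals

For polynomials `F_a`, `q_a` the primitives `Φ_(a,j)` of `x^j dx / (q_a √F_a)`, `j < deg F_a - 1 + deg q_a`, are integrals
of the three kinds on the curve `C_a : y² = F_a(x)`, with logarithmic poles over the zeros of `q_a`. Up to constants they
are the components of the generalised logarithm of the point `R_x` of the generalised Jacobian `G_a` of `C_a` (an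
extension of the Jacobian by a torus of dimension `deg q_a`) defined by `(x, √F_a(x)) - ∞`. The constants `κ` of the
invariant differentials (`2 j + 2 < deg F_a + 2 deg q_a`) are the values of the primitives at `∞`.

We consider the points `R_p` whose `x`-coordinates are prime numbers `p`. The theorem: for all `r` and `τ` there are
infinitely many intervals of a length bounded in terms of `r`, `τ` and the curves which contain `r` consecutive primes
`p_1 < … < p_r` such that between the generalised logarithms of the points `R_{p_1}, …, R_{p_r}` of all the `G_a`, along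
any paths, and the numbers `log p_i`, there is no relation of degree at most `δ` over number fields of degree at most
`δ`, fixed constants `c` (for instance the periods of `G = ∏ G_a`) and `τ` arbitrary numbers `w(N)`, which may depend on
the position `N` of the interval. Here `δ` grows with the primes: `δ` may be a fixed power of `log N`. There is no bound
for the heights of the coefficients.

The proof: all primes of an interval of bounded length which contains sufficiently many primes (theorem of Maynard and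
Tao, starting files, `Pool.Agent.H362R2.CM.quarter`) are elements of one window, and by the starting result
`GrowingDegreeWindows` of this problem a window has a bounded number of exceptional elements, so that there are `r`
consecutive primes between two of them.
-/

set_option autoImplicit false

open Filter Topology Bornology

namespace Pool.Agent.Results.MP_4b482e_nt.ConsecutivePrimes

/-- The indices `(a, j)`, `j < deg F_a - 1 + deg q_a`, of the differentials. -/
abbrev Idx {s : ℕ} (F q : Fin s → Polynomial ℤ) : Type := Σ a, Fin ((F a).natDegree - 1 + (q a).natDegree)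

/-- The plane without the disc of radius `R` and the negative real half line. -/
def Domain (R : ℝ) : Set ℂ := {x | R < ‖x‖ ∧ x ∈ Complex.slitPlane}

/-- On the domain `S_a` is a continuous square root of `F_a` and `Φ_(a,j)` a primitive of `x^j / (q_a S_a)`. -/
def Primitives {s : ℕ} (F q : Fin s → Polynomial ℤ) (R : ℝ) (S : Fin s → ℂ → ℂ) (Φ : Idx F q → ℂ → ℂ) : Prop :=
  ∀ x ∈ Domain R, (∀ a, ContinuousAt (S a) x ∧ S a x ^ 2 = Polynomial.aeval x (F a)) ∧
    ∀ p : Idx F q, HasDerivAt (Φ p) (x ^ (p.2 : ℕ) / (Polynomial.aeval x (q p.1) * S p.1 x)) x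

/-- The numbers `Φ_(a,j)(x)` and `log x`. -/
noncomputable def number {s : ℕ} {F q : Fin s → Polynomial ℤ} (Φ : Idx F q → ℂ → ℂ) (x : ℂ) : Idx F q ⊕ Unit → ℂ
  | Sum.inl p => Φ p x
  | Sum.inr _ => Complex.log x

/-- The numbers `x` are free up to degree `δ` over the constants `w` and `c`: if `K` is a number field of degree at most
`δ`, `y` consists of nonzero `K`-multiples of the numbers `x` plus elements of `K + ∑ K w_j + ∑ K c_j`, and `P` is a
polynomial over `K` of degree at most `δ` with `P(w, c, y) = 0`, then `P(w, c, Y) = 0` identically in `Y`. -/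
def Free (δ : ℕ) {τ : ℕ} {υ ι : Type} (w : Fin τ → ℂ) (c : υ → ℂ) (x : ι → ℂ) : Prop :=
  ∀ K : IntermediateField ℚ ℂ, FiniteDimensional ℚ K → Module.finrank ℚ K ≤ δ →
  ∀ y : ι → ℂ, (∀ p, ∃ b : K, b ≠ 0 ∧ y p - b * x p ∈ Submodule.span K (insert 1 (Set.range (Sum.elim w c)))) →
  ∀ P : MvPolynomial ((Fin τ ⊕ υ) ⊕ ι) K, P.totalDegree ≤ δ →
    MvPolynomial.aeval (Sum.elim (Sum.elim w c) y) P = 0 →
    MvPolynomial.aeval (Sum.elim (fun j => MvPolynomial.C (Sum.elim w c j)) MvPolynomial.X) P = (0 : MvPolynomial ι ℂ)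

/-- Let `F_a`, `q_a` be integral polynomials with positive leading coefficients such that `F_a q_a` is squarefree,
`deg F_a` is odd, `deg F_a + 2 deg q_a ≥ 3` and no `F_a` is proportional to an integral translate of another `F_b`, and
let `Φ` be primitives of the differentials `x^j dx / (q_a √F_a)` on a domain as above. There are numbers `κ`, equal to the
limits at infinity of the primitives which converge, such that for every finite family `c` of numbers which contains all
the `κ` and `2πi` and all `r`, `τ` there are `L` and `C` such that for all functions `w` from the natural numbers to `ℂ^τ`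
there are infinitely many `N` for which there are `r` consecutive primes `p_k, …, p_{k+r-1}` in `(N, N + L]`, such that the
numbers `Φ_(a,j)(p_i)`, `log p_i` are free up to degree `δ` over `w(N)` and `c`, for all `δ` with
`(δ + 2) ^ C ≤ log N`. -/
theorem result {s : ℕ} (F q : Fin s → Polynomial ℤ)
    (hsf : ∀ a, Squarefree ((F a * q a).map (Int.castRingHom ℚ))) (hodd : ∀ a, Odd (F a).natDegree)
    (hdeg : ∀ a, 3 ≤ (F a).natDegree + 2 * (q a).natDegree)
    (hpos : ∀ a, 0 < (F a).leadingCoeff ∧ 0 < (q a).leadingCoeff)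
    (hdist : ∀ a b, a ≠ b → ∀ h c₁ c₂ : ℤ, c₁ ≠ 0 → c₂ ≠ 0 →
      Polynomial.C c₁ * F a ≠ Polynomial.C c₂ * (F b).comp (Polynomial.X + Polynomial.C h))
    (R : ℝ) (S : Fin s → ℂ → ℂ) (Φ : Idx F q → ℂ → ℂ) (hΦ : Primitives F q R S Φ) :
    ∃ κ : Idx F q → ℂ,
      (∀ p : Idx F q, 2 * (p.2 : ℕ) + 2 < (F p.1).natDegree + 2 * (q p.1).natDegree →
        Tendsto (Φ p) (cobounded ℂ ⊓ 𝓟 Complex.slitPlane) (𝓝 (κ p))) ∧
      ∀ (υ : Type) [Fintype υ] (c : υ → ℂ), Set.range κ ⊆ Set.range c → 2 * Real.pi * Complex.I ∈ Set.range c →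
      ∀ r τ : ℕ, ∃ L C : ℕ, ∀ w : ℕ → Fin τ → ℂ,
        {N : ℕ | ∃ k : ℕ, (∀ i : Fin r, N < Nat.nth Nat.Prime (k + i) ∧ Nat.nth Nat.Prime (k + i) ≤ N + L) ∧
          ∀ δ : ℕ, ((δ : ℝ) + 2) ^ C ≤ Real.log N →
            Free δ (w N) c fun p : Fin r × (Idx F q ⊕ Unit) =>
              number Φ (Nat.nth Nat.Prime (k + p.1)) p.2}.Infinite := by
  classical
  have hG : ∀ a, Pool.Agent.Y916.Sa.GoodP (F a) (q a) := by
    intro a
    have h := hsf a
    rw [Polynomial.map_mul, squarefree_mul_iff] at h
    exact ⟨h.2.1, hodd a, (hpos a).1, h.2.2, (hpos a).2, h.1.isCoprime, hdeg a⟩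
  have hx : ∀ (x : ℂ) i, number Φ x i = Pool.Agent.Y916.Sl.xP F q Φ x i := by
    rintro x (p | w) <;> rfl
  obtain ⟨κ, ⟨R', hκ⟩, h⟩ := Pool.Agent.R351.GD.windowsN_exp Pool.Agent.Y916.Sl.tQ
    Pool.Agent.Y916.Sl.tP F q hG (fun a b hab h c₁ c₂ => hdist a b hab h c₁ c₂) (one_ne_zero (α := ℂ)) (R := R)
    (S := S) (Φ := Φ) (fun x hx1 hx2 => hΦ x ⟨hx1, by rwa [div_one] at hx2⟩)
  refine ⟨κ, fun p hp => ?_, ?_⟩
  · have h1 := Pool.Agent.Y916.Sl.limS hG hκ p hp
    simp only [div_one] at h1
    exact h1
  intro υ _ c hc hpi r τ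
  rcases Nat.eq_zero_or_pos r with hr | hr
  · subst hr
    refine ⟨0, 1, fun w => Set.infinite_univ.mono fun N _ => ⟨0, fun i => i.elim0, fun δ _ => ?_⟩⟩
    intro K hK hKd y hy P hPd hP0
    have hE : IsEmpty (Fin 0 × (Idx F q ⊕ Unit)) := ⟨fun p => p.1.elim0⟩
    apply MvPolynomial.funext
    intro z
    rw [Pool.Agent.Run7.h643.MX.eval_aeval, map_zero, ← hP0]
    congr 2
    funext a
    rcases a with a | a
    · rfl
    · exact a.1.elim0
  obtain ⟨E, ⟨C, hC⟩, hE⟩ := h υ c hc hpi r 1 1 τ
  obtain ⟨L, hL⟩ := Pool.Agent.Run7.h643.MW.runs r (τ + 1 + Fintype.card υ) C hr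
  refine ⟨L, C + 1, fun w => ?_⟩
  have hinf := hL (fun N δ n => R < N → Free δ (w N) c fun p : Fin r × (Idx F q ⊕ Unit) =>
      number Φ ((N : ℂ) + n p.1) p.2)
    (fun N δ δ' n hgood hle hR K hK hKd y hy P hPd => hgood hR K hK (hKd.trans hle) y hy P (hPd.trans hle))
    (fun N δ hN hLN => by
      obtain ⟨T, hT, h1⟩ := hE δ L (N : ℂ) (by
        rw [Complex.norm_natCast]
        refine le_trans (pow_le_pow_right₀ ?_ (hC δ)) hLN
        linarith [(Nat.cast_nonneg L : (0 : ℝ) ≤ L)]) (Pool.Agent.R351.GD.ht_nat hN) (w N)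
      refine ⟨T, ?_, fun n hinj hn hR K hK hKd y hy P hPd hP0 => ?_⟩
      · have h2 := Pool.Agent.Run7.h643.MW.trdeg_adj c
        have h3 : (T.card : Cardinal) ≤ ((τ + 1 + Fintype.card υ : ℕ) : Cardinal) := by
          refine hT.trans ?_
          push_cast
          gcongr
        exact_mod_cast h3
      · refine h1 n hinj (fun i => ⟨(hn i).1, (hn i).2.1, (hn i).2.2, ?_, ?_⟩) K hK hKd y (fun p => ?_) P hPd hP0
        · have h4 : ((N : ℂ) + n i) = ((N + n i : ℕ) : ℂ) := by push_cast; rfl
          rw [h4, Complex.norm_natCast]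
          push_cast
          linarith [(Nat.cast_nonneg (n i) : (0 : ℝ) ≤ n i)]
        · rw [div_one]
          have h4 : ((N : ℂ) + n i) = ((N + n i : ℕ) : ℂ) := by push_cast; rfl
          rw [h4, Complex.natCast_mem_slitPlane]
          omega
        · obtain ⟨b, hb0, hb⟩ := hy p
          refine ⟨b, hb0, ?_⟩
          have h12 : number Φ ((N : ℂ) + n p.1) p.2 = Pool.Agent.Y916.Sl.xP F q Φ ((N : ℂ) + n p.1) p.2 := hx _ _
          exact (congrArg (fun z => y p - b * z ∈
            Submodule.span K (insert 1 (Set.range (Sum.elim (w N) c)))) h12).mp hb)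
  have hinf' := hinf.sdiff (Finset.finite_toSet (Finset.range (⌈R⌉₊ + 1)))
  refine hinf'.mono ?_
  rintro N ⟨⟨k, hk, hfree⟩, hNR⟩
  have hRN : R < N := by
    rw [Finset.mem_coe, Finset.mem_range] at hNR
    have h5 : ⌈R⌉₊ + 1 ≤ N := by omega
    have h6 := Nat.le_ceil R
    have h7 : ((⌈R⌉₊ + 1 : ℕ) : ℝ) ≤ N := by exact_mod_cast h5
    push_cast at h7
    linarith
  refine ⟨k, hk, fun δ hδ => ?_⟩
  have h8 := hfree δ hδ hRN
  have h9 : (fun p : Fin r × (Idx F q ⊕ Unit) =>
      number Φ ((N : ℂ) + ((Nat.nth Nat.Prime (k + p.1) - N : ℕ) : ℂ)) p.2) =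
      fun p : Fin r × (Idx F q ⊕ Unit) => number Φ (Nat.nth Nat.Prime (k + p.1)) p.2 := by
    funext p
    have h10 := (hk p.1).1
    rw [Nat.cast_sub h10.le, add_sub_cancel]
  rw [h9] at h8
  exact h8

end Pool.Agent.Results.MP_4b482e_nt.ConsecutivePrimes
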