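import Pool.Agent.Results.MP_4b482e_nt.RandomPoints
import Pool.Agent.Run7.h469.Nsg
import Pool.Agent.Run7.h469.Cnt

/-!
# Generalised logarithms of points of semi-abelian varieties with coefficients near a generic subspace

Let `E_j = ℂ/Ω_j`, `j ≤ n₁`, be elliptic curves with complex multiplication (by `β_j`) and `E'_j = ℂ/Ω'_j`, `j ≤ n₂`, ARBITRARY
elliptic curves over the algebraic numbers, with integrals `J_j(z) = σ_j ζ(z) + ρ_j z` of the second kind on `E'_j` (`σ_j`, `ρ_j`
algebraic, not both `0`). Let `u_{j,1}, …, u_{j,k}` be elliptic logarithms of ARBITRARY algebraic points of `E_j`, linearly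
independent over `End(E_j) ⊗ ℚ`, `v_{j,1}, …, v_{j,k}` such elliptic logarithms for `E'_j`, and `λ_{j,1}, …, λ_{j,k}` (`j ≤ r`)
logarithms of algebraic numbers, linearly independent over `ℚ`. Let `b_j`, `c_j` be elliptic logarithms of algebraic points and
`τ_j` linear forms in `1` and logarithms of algebraic numbers, for instance `0`. For integral coefficients `m` let

  `p_j = b_j + ∑_i (m_{j,i,0} + m_{j,i,1} β_j) u_{j,i}`,  `q_j = c_j + ∑_i m'_{j,i} v_{j,i}`,
  `y_j = τ_j + ∑_i m''_{j,i} λ_{j,i}`.

Let `W` be a space of complex numbers of dimension at most `N` over `ℚ̄`, for instance the space generated by the monomials of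
bounded degree in the periods of `G = ∏ E_j × ∏ E'_j × 𝔾ₘ^r`. The coefficients `m` are good if the points `p_j`, `q_j` are not in
the lattices, `℘(p_j)`, `℘(q_j)` are algebraic, and there is a space `F` of dimension at most `C` of linear forms in `1` and
logarithms of algebraic numbers such that the `y_j` are linearly independent over `ℚ̄` modulo `F`, and such that `p_j`, `ζ(p_j)`,
`J_j(q_j)`, `y_j`, `l_1, …, l_t` have no nonzero polynomial relation with coefficients in `W`, of degree at most `D` in each of the
first `2 n₁ + n₂ + r` numbers and of total degree at most `1` in `l_1, …, l_t`, for ARBITRARY linear forms `l_i` in `1` and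
logarithms of algebraic numbers which are linearly independent over `ℚ̄` modulo `F` and the `y_j`.

Theorem. There are `k₀`, `C` and `δ > 0`, depending only on `n₁`, `n₂`, `r`, `D` and `N`, with the following property for all `k ≥ k₀`. Let `M = (2 n₁ + n₂ + r) k` be the number of the integral coefficients, `h ≥ 0` and `0 ≤ θ < 1`. (1) For all
systems `α` of `h` real vectors in `ℝ^M` outside a set of Hausdorff dimension at most `M (h - 1) + (M - δ k + h) / (1 - θ)` (less
than `M h`, if `h + M θ < δ k`) and all `A`, ALL but finitely many of the integer vectors `m`, for which the distance of `m` to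
some point `∑ x_l α_l` of the space spanned by `α` is at most `A (1 + |x|)^θ`, are good. (2) If `h ≥ 1` and `h + M θ < δ k`, then
for almost all `α` this is true for ALL systems of logarithms `λ` and ALL `τ` at the same time.

For instance (`h = 1`, `θ = 0`) for almost all real vectors `α` all points with the coefficients `⌊v α_i⌋`, `v` a large integer,
are good. The dimension `h` of the spaces can be large, up to `δ k`. As `A` is arbitrary, the same holds for the integer vectors
near the affine spaces parallel to the given one.

The theorem `RandomPoints` of this problem (of our team) shows that for an arbitrary finite set `X` of integers all but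
`C |X|^(M - δ k)` of the coefficients in `X` are good. For `X = {-T, …, T}` and fixed `k` this is a power saving, by the power
`δ k` of `T`, and this power is larger than the dimension `h`. A covering argument (`Pool.Agent.N251.LF.Tuples` of the starting
library, where it is applied to tuples of integers) bounds the dimension of the exceptional set of `α`. The systems of logarithms are countable, which gives (2).
-/

set_option autoImplicit false

noncomputable section

namespace Pool.Agent.Results.MP_4b482e_nt.NearGenericSubspaces

open MeasureTheory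
open Run7.h469.Nsi (Near NearSubspaces)
open Run7.h469.Nsg (Index toCoeffs near_coeffs)
open Pool.Agent.Results.MP_4b482e_nt.RandomPoints (CMGroup EllGroup LogGroup LogForms Good)

/-- there are countably many systems of logarithms -/
instance countable_logGroup (k : ℕ) : Countable (LogGroup k) := by
  have hT : ((Set.univ.pi fun _ : Fin k => {z : ℂ | IsAlgebraic ℚ (Complex.exp z)}) ×ˢ (LogForms : Set ℂ)).Countable :=
    (Set.countable_univ_pi fun _ => Run7.h469.Cnt.countable_logs).prod Run7.h469.Cnt.countable_logForms
  have := hT.to_subtype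
  let φ : LogGroup k → ↥((Set.univ.pi fun _ : Fin k => {z : ℂ | IsAlgebraic ℚ (Complex.exp z)}) ×ˢ (LogForms : Set ℂ)) :=
    fun f => ⟨(f.lam, f.τ), fun i _ => f.alg i, f.algτ⟩
  have hφ : Function.Injective φ := by
    rintro ⟨l, h1, h2, t, h3⟩ ⟨l', h1', h2', t', h3'⟩ heq
    have h4 := congrArg Subtype.val heq
    simp only [φ, Prod.mk.injEq] at h4
    obtain ⟨rfl, rfl⟩ := h4
    rfl
  exact hφ.countable

/-- **Generalised logarithms near generic subspaces.** There are `k₀`, `C` and `δ > 0`, depending only on `n₁`, `n₂`, `r`, `D`
and `N`, such that for all `k ≥ k₀`, `h`, `0 ≤ θ < 1`, all elliptic data `d`, `e` and all spaces `W` of dimension at most `N`,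
with `M = (2 n₁ + n₂ + r) k`: (1) for all systems `f` of logarithms, for all systems `α` of `h` real vectors outside a set of
dimension at most `M (h - 1) + (M - δ k + h) / (1 - θ)`, for all `A`, all but finitely many of the integer vectors within
`A (1 + |x|)^θ` of some point `∑ x_l α_l` of the space spanned by `α` are good; (2) if `h ≥ 1` and `h + M θ < δ k`, then for
almost all `α` this is true for ALL `f`. -/
theorem result (n₁ n₂ r D N : ℕ) (hn : 1 ≤ n₁ + n₂ + r) : ∃ (k₀ C : ℕ) (δ : ℝ), 0 < δ ∧ ∀ k ≥ k₀,
    ∀ (h : ℕ) (θ : ℝ), 0 ≤ θ → θ < 1 → ∀ (d : Fin n₁ → CMGroup k) (e : Fin n₂ → EllGroup k)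
    (W : Submodule (algebraicClosure ℚ ℂ) ℂ), Module.Finite (algebraicClosure ℚ ℂ) W →
    Module.finrank (algebraicClosure ℚ ℂ) W ≤ N →
    (∀ f : Fin r → LogGroup k, NearSubspaces (Index n₁ n₂ r k) h
      (((2 * n₁ + n₂ + r) * k : ℝ) * (h - 1) + ((2 * n₁ + n₂ + r) * k - δ * k + h) / (1 - θ)) θ
      (fun m => Good d e f W C D (toCoeffs m))) ∧
    (1 ≤ h → (h : ℝ) + (2 * n₁ + n₂ + r) * k * θ < δ * k → ∀ᵐ α : Index n₁ n₂ r k × Fin h → ℝ,
      ∀ (f : Fin r → LogGroup k) (A : ℝ), {m ∈ Near α A θ | ¬ Good d e f W C D (toCoeffs m)}.Finite) := by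
  obtain ⟨k₀, C, δ, hδ, hR⟩ := Pool.Agent.Results.MP_4b482e_nt.RandomPoints.result n₁ n₂ r D N
  refine ⟨max k₀ 1, C, min δ 1, lt_min hδ one_pos, fun k hk h θ hθ0 hθ d e W hW hWN => ?_⟩
  have hk1 : 1 ≤ k := (le_max_right _ _).trans hk
  have hk0 : k ≥ k₀ := (le_max_left _ _).trans hk
  have key := fun f : Fin r → LogGroup k => near_coeffs h hn hk1 (fun m => Good d e f W C D m) (Nat.cast_nonneg C)
    (fun X hX => by
      refine le_of_eq_of_le ?_ (hR k hk0 d e f X hX W hW hWN)
      unfold Pool.Agent.Results.MP_4b482e_nt.RandomPoints.coeffs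
      congr!) hθ0 hθ
  refine ⟨fun f => (key f).1, fun hh hlt => ?_⟩
  rw [ae_all_iff]
  intro f
  exact (key f).2 hh hlt

end Pool.Agent.Results.MP_4b482e_nt.NearGenericSubspaces
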