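import Pool.Agent.Run7.h788.RandMix
import Pool.Agent.R350.GV

/-!
# Generalised logarithms of random algebraic points of split semi-abelian varieties, relative to arbitrary
# constants and together with arbitrary further logarithms

Let `G = ∏ E_j × ∏ E'_j × 𝔾ₘ^r`, where the `E_j = ℂ/Ω_j`, `j ≤ n₁`, are elliptic curves with complex
multiplication and the `E'_j = ℂ/Ω'_j`, `j ≤ n₂`, are ARBITRARY elliptic curves over the algebraic numbers
(factors may be equal or isogenous), with integrals `J_j(z) = σ_j ζ(z) + ρ_j z` of the second kind on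
`E'_j` (`σ_j`, `ρ_j` algebraic, not both `0`).  We consider random points in given groups of ARBITRARY
algebraic points of the factors: let `u_{j,1}, …, u_{j,k}` be elliptic logarithms of algebraic points of
`E_j`, linearly independent over `End(E_j) ⊗ ℚ`, `v_{j,1}, …, v_{j,k}` such elliptic logarithms for
`E'_j`, and `λ_{j,1}, …, λ_{j,k}` (`j ≤ r`) logarithms of algebraic numbers, linearly independent over
`ℚ`.  Let `b_j`, `c_j` be elliptic logarithms of algebraic points and let `τ_j` be linear forms in `1` and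
logarithms of algebraic numbers, for instance `0`.  For a finite nonempty set `A` of integers let

  `p_j = b_j + ∑_i (m_{j,i,0} + m_{j,i,1} α_j) u_{j,i}`,  `q_j = c_j + ∑_i m'_{j,i} v_{j,i}`,
  `y_j = τ_j + ∑_i m''_{j,i} λ_{j,i}`

with all the coefficients in `A`.  The numbers `p_j`, `ζ(p_j)` and `y_j` are the components of the
generalised logarithm of the random point (for `τ = 0`), and one component is taken for the `E'_j`.

**Theorem.** For all `n₁`, `n₂`, `r`, `D`, `N` there are `k₀`, `C` and `δ > 0` such that for all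
`k ≥ k₀`, all these data, all `A` and all spaces `W` of complex numbers of dimension at most `N` over the
field of algebraic numbers, for all but `C |A| ^ ((2 n₁ + n₂ + r) k - δ k)` of the parameters: the points
`p_j`, `q_j` are not in the lattices, `℘(p_j)`, `℘(q_j)` are algebraic, and there is a space `F` of
dimension at most `C` of linear forms in `1` and logarithms of algebraic numbers such that the `y_j` are
linearly independent over the algebraic numbers modulo `F`, and such that

  `p_j`, `ζ(p_j)`, `J_j(q_j)`, `y_j`, `l_1, …, l_t`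

have no nonzero polynomial relation with coefficients in `W`, of degree at most `D` in each of the first
`2 n₁ + n₂ + r` numbers and of total degree at most `1` in `l_1, …, l_t`, where the `l_i` are ARBITRARY
logarithms of algebraic numbers (or linear forms in logarithms), any number of them, chosen after the
random points, and linearly independent over the algebraic numbers modulo `F` and the `y_j`.

`W` can be the space generated by the monomials of bounded degree in the elements of the set `Ω_G` of
all the periods of `G` (`2 π i`, periods and quasi-periods), so this is the relative conjecture in bounded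
degree for random points.  Nothing is assumed about the points of the groups.

In the starting results of this problem the points are translates or have varying abscissas
(`TranslatesInWindows`, `GrowingDegreeWindows`, `AlgebraicWindows`), or the numbers are polynomials in
logarithms (`PolynomialsInLogs`).

**The proof.**  The elliptic part: `Pool.Agent.Run7.h788.rand_ell` (from the library theorems on random
points of curves with complex multiplication and on integrals of the second kind,
`Pool.Agent.Y918.EL`, which use the theorems on linear forms in elliptic logarithms and integrals of the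
second kind, `Pool.Agent.W245.EB`).  The multiplicative part: the hyperplane case of the linear subgroup
theorem of Waldschmidt and Roy, and an iterated Cauchy-Schwarz inequality
(`Pool.Agent.Run7.h788.rand_lin`), applied to the space `W` enlarged by the monomials in the elliptic
numbers (`Pool.Agent.Run7.h788.Compose`, `Pool.Agent.Run7.h788.RandMix`).
-/

set_option autoImplicit false

open scoped PeriodPair

noncomputable section

namespace Pool.Agent.Results.MP_4b482e_nt.RandomPoints

/-- The field of algebraic numbers. -/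
abbrev Qbar : IntermediateField ℚ ℂ := algebraicClosure ℚ ℂ

/-- The Weierstrass zeta function
`ζ(z) = 1/z + ∑_{l ≠ 0} (1/(z - l) + 1/l + z/l²)` (in Lean `1/0 = 0`, so that the term with `l = 0`
of the sum below is `1/z`). -/
def zetaW (L : PeriodPair) (z : ℂ) : ℂ := ∑' l : L.lattice, (1 / (z - l) + 1 / l + z / l ^ 2)

/-- `u` is an elliptic logarithm of an algebraic point (the elements of the lattice are allowed). -/
def EllLog (L : PeriodPair) (u : ℂ) : Prop := u ∈ L.lattice ∨ IsAlgebraic ℚ (℘[L] u)

/-- `β` belongs to the field `k = End(ℂ/Ω) ⊗ ℚ`: some multiple `m β`, `m ≥ 1`, maps the lattice `Ω`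
to itself. -/
def IsMult (L : PeriodPair) (β : ℂ) : Prop :=
  ∃ m : ℕ, 0 < m ∧ ∀ ω ∈ L.lattice, (m : ℂ) * β * ω ∈ L.lattice

/-- The numbers `w_j` are linearly independent over `k`. -/
def IndepMult (L : PeriodPair) {R : ℕ} (w : Fin R → ℂ) : Prop :=
  ∀ β : Fin R → ℂ, (∀ j, IsMult L (β j)) → ∑ j, β j * w j = 0 → ∀ j, β j = 0

/-- The linear combinations, with algebraic coefficients, of `1` and logarithms of algebraic numbers. -/
def LogForms : Submodule Qbar ℂ :=
  Submodule.span Qbar ({1} ∪ {z : ℂ | IsAlgebraic ℚ (Complex.exp z)})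

/-- A curve `ℂ/Ω` with complex multiplication by `α` over the algebraic numbers, with `k` elliptic
logarithms `u_i` of algebraic points which are linearly independent over `End ⊗ ℚ`, and an elliptic
logarithm `b` of an algebraic point. -/
structure CMGroup (k : ℕ) where
  /-- the lattice `Ω` -/
  L : PeriodPair
  g2 : IsAlgebraic ℚ L.g₂
  g3 : IsAlgebraic ℚ L.g₃
  /-- the multiplication -/
  α : ℂ
  nonreal : α.im ≠ 0
  mult : ∀ ω ∈ L.lattice, α * ω ∈ L.lattice
  /-- the elliptic logarithms -/
  u : Fin k → ℂ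
  alg : ∀ i, EllLog L (u i)
  indep : IndepMult L u
  /-- the shift -/
  b : ℂ
  algb : EllLog L b

/-- The random point `p = b + ∑_i (m_{i,0} + m_{i,1} α) u_i`. -/
def CMGroup.point {k : ℕ} (d : CMGroup k) (m : Fin k × Fin 2 → ℤ) : ℂ :=
  d.b + ∑ i, ((m (i, 0) : ℂ) + m (i, 1) * d.α) * d.u i

/-- An arbitrary curve `ℂ/Ω` over the algebraic numbers, with `k` elliptic logarithms `v_i` of algebraic
points which are linearly independent over `End ⊗ ℚ`, an elliptic logarithm `c` of an algebraic point,
and an integral `σ ζ(z) + ρ z` of the second kind. -/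
structure EllGroup (k : ℕ) where
  /-- the lattice `Ω` -/
  L : PeriodPair
  g2 : IsAlgebraic ℚ L.g₂
  g3 : IsAlgebraic ℚ L.g₃
  /-- the coefficient of `ζ` -/
  σ : ℂ
  /-- the coefficient of `z` -/
  ρ : ℂ
  algσ : IsAlgebraic ℚ σ
  algρ : IsAlgebraic ℚ ρ
  ne : σ ≠ 0 ∨ ρ ≠ 0
  /-- the elliptic logarithms -/
  v : Fin k → ℂ
  alg : ∀ i, EllLog L (v i)
  indep : IndepMult L v
  /-- the shift -/
  c : ℂ
  algc : EllLog L c

/-- The random point `q = c + ∑_i m_i v_i`. -/
def EllGroup.point {k : ℕ} (e : EllGroup k) (m : Fin k → ℤ) : ℂ := e.c + ∑ i, (m i : ℂ) * e.v i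

/-- The integral `J(z) = σ ζ(z) + ρ z`. -/
def EllGroup.J {k : ℕ} (e : EllGroup k) (z : ℂ) : ℂ := e.σ * zetaW e.L z + e.ρ * z

/-- `k` logarithms of algebraic numbers which are linearly independent over `ℚ`, and a linear form `τ` in
`1` and logarithms of algebraic numbers. -/
structure LogGroup (k : ℕ) where
  /-- the logarithms -/
  lam : Fin k → ℂ
  alg : ∀ i, IsAlgebraic ℚ (Complex.exp (lam i))
  indep : LinearIndependent ℚ lam
  /-- the shift -/
  τ : ℂ
  algτ : τ ∈ LogForms

/-- The random logarithm `y = τ + ∑_i m_i λ_i`. -/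
def LogGroup.point {k : ℕ} (f : LogGroup k) (m : Fin k → ℤ) : ℂ := f.τ + ∑ i, (m i : ℂ) * f.lam i

/-- The `y_j` are linearly independent modulo `F`, and there is no nonzero relation with coefficients in
`W`, of degree at most `D` in the numbers `x` and `y`, which is linear in arbitrary elements of
`LogForms` which are independent modulo `F` and `y`. -/
def NoRelation (W F : Submodule Qbar ℂ) (D : ℕ) {σ : Type} (x : σ → ℂ) {n : ℕ} (y : Fin n → ℂ) :
    Prop :=
  (∀ c : Fin n → Qbar, ∑ i, c i • y i ∈ F → ∀ i, c i = 0) ∧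
  ∀ (t : ℕ) (l : Fin t → ℂ), (∀ j, l j ∈ LogForms) →
    (∀ c : Fin t → Qbar, ∑ j, c j • l j ∈ F ⊔ Submodule.span Qbar (Set.range y) → ∀ j, c j = 0) →
    ∀ P : MvPolynomial (σ ⊕ (Fin n ⊕ Fin t)) ℂ, (∀ β, P.coeff β ∈ W) →
      (∀ i, P.degreeOf (Sum.inl i) ≤ D) → (∀ i, P.degreeOf (Sum.inr (Sum.inl i)) ≤ D) →
      (∀ β ∈ P.support, ∑ j, β (Sum.inr (Sum.inr j)) ≤ 1) →
      MvPolynomial.eval (Sum.elim x (Sum.elim y l)) P = 0 → P = 0

/-- The coefficients of the random points. -/
abbrev Coeffs (n₁ n₂ r k : ℕ) : Type :=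
  ((Fin n₁ → Fin k × Fin 2 → ℤ) × (Fin n₂ → Fin k → ℤ)) × (Fin r → Fin k → ℤ)

/-- All the coefficients are in `A`. -/
def coeffs (n₁ n₂ r k : ℕ) (A : Finset ℤ) : Finset (Coeffs n₁ n₂ r k) :=
  ((Fintype.piFinset fun _ => Fintype.piFinset fun _ => A) ×ˢ
    (Fintype.piFinset fun _ => Fintype.piFinset fun _ => A)) ×ˢ
    (Fintype.piFinset fun _ => Fintype.piFinset fun _ => A)

/-- The numbers `p_j`, `ζ(p_j)`, `J_j(q_j)`. -/
def ellNumbers {n₁ n₂ r k : ℕ} (d : Fin n₁ → CMGroup k) (e : Fin n₂ → EllGroup k)
    (m : Coeffs n₁ n₂ r k) : (Fin n₁ ⊕ Fin n₁) ⊕ Fin n₂ → ℂ :=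
  Sum.elim (Sum.elim (fun j => (d j).point (m.1.1 j))
    (fun j => zetaW (d j).L ((d j).point (m.1.1 j)))) (fun j => (e j).J ((e j).point (m.1.2 j)))

/-- The conclusion: the points are not in the lattices, they are algebraic, and there are no relations. -/
def Good {n₁ n₂ r k : ℕ} (d : Fin n₁ → CMGroup k) (e : Fin n₂ → EllGroup k) (f : Fin r → LogGroup k)
    (W : Submodule Qbar ℂ) (C D : ℕ) (m : Coeffs n₁ n₂ r k) : Prop :=
  (∀ j, (d j).point (m.1.1 j) ∉ (d j).L.lattice ∧ IsAlgebraic ℚ (℘[(d j).L] ((d j).point (m.1.1 j)))) ∧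
  (∀ j, (e j).point (m.1.2 j) ∉ (e j).L.lattice ∧ IsAlgebraic ℚ (℘[(e j).L] ((e j).point (m.1.2 j)))) ∧
  ∃ F : Submodule Qbar ℂ, Module.Finite Qbar F ∧ Module.finrank Qbar F ≤ C ∧ F ≤ LogForms ∧
    NoRelation W F D (ellNumbers d e m) (fun j => (f j).point (m.2 j))

open Classical in
/-- **Main result.** -/
theorem result (n₁ n₂ r D N : ℕ) : ∃ (k₀ C : ℕ) (δ : ℝ), 0 < δ ∧ ∀ k ≥ k₀,
    ∀ (d : Fin n₁ → CMGroup k) (e : Fin n₂ → EllGroup k) (f : Fin r → LogGroup k),
    ∀ A : Finset ℤ, A.Nonempty →
    ∀ W : Submodule Qbar ℂ, Module.Finite Qbar W → Module.finrank Qbar W ≤ N →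
    (((coeffs n₁ n₂ r k A).filter (fun m => ¬ Good d e f W C D m)).card : ℝ) ≤
      C * (A.card : ℝ) ^ (((2 * n₁ + n₂ + r) * k : ℝ) - δ * k) := by
  obtain ⟨k₀, C, δ, hδ, h⟩ := Run7.h788.rand_mix n₁ n₂ r D N
  refine ⟨k₀, C, δ, hδ, fun k hk d e f A hA W hW hWN => ?_⟩
  let d' : Fin n₁ → Pool.Agent.Y918.EL.CM := fun j =>
    { L := (d j).L
      g2 := (d j).g2
      g3 := (d j).g3
      α := (d j).α
      hα := (d j).nonreal
      hm := (d j).mult }
  let e' : Fin n₂ → Pool.Agent.Y918.EL.SK := fun j =>
    { L := (e j).L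
      g2 := (e j).g2
      g3 := (e j).g3
      σ := (e j).σ
      ρ := (e j).ρ
      hσ := (e j).algσ
      hρ := (e j).algρ
      hne := (e j).ne }
  have h1 := h k hk d' (fun j => (d j).u)
    (fun j => ⟨(d j).alg, fun β hβ h0 => funext fun i => (d j).indep β hβ h0 i⟩) (fun j => (d j).b)
    (fun j => (d j).algb) e' (fun j => (e j).v)
    (fun j => ⟨(e j).alg, fun β hβ h0 => funext fun i => (e j).indep β hβ h0 i⟩) (fun j => (e j).c)
    (fun j => (e j).algc) (fun j => (f j).lam)
    (fun j i => Pool.Agent.H301R2.SSE.Lt_log ((f j).alg i))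
    (fun j => Pool.Agent.R350.li_complex _ (f j).alg (f j).indep) (fun j => (f j).τ)
    (fun j => (f j).algτ) A hA W hW hWN
  refine le_trans (Nat.cast_le.2 (Finset.card_le_card ?_)) h1
  intro m hm
  rw [Finset.mem_filter] at hm ⊢
  refine ⟨hm.1, fun hG => hm.2 ?_⟩
  obtain ⟨⟨hp, hq, -⟩, F, hF1, hF2, hF3, hF4⟩ := hG
  refine ⟨fun j => ⟨(hp j).1, (hp j).2.resolve_left (hp j).1⟩,
    fun j => ⟨(hq j).1, (hq j).2.resolve_left (hq j).1⟩, F, hF1, hF2, hF3, ?_⟩
  have he : Run7.h788.ellN d' (fun j => (d j).b) (fun j => (d j).u) e' (fun j => (e j).c)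
      (fun j => (e j).v) m.1 = ellNumbers d e m := by
    funext i
    rcases i with (i | i) | i
    · rfl
    · exact Pool.Agent.W245.EB.zt_of_notMem (hp i).1
    · have h5 : Pool.Agent.W245.EB.zt (e i).L ((e i).point (m.1.2 i)) =
          zetaW (e i).L ((e i).point (m.1.2 i)) := Pool.Agent.W245.EB.zt_of_notMem (hq i).1
      change (e i).σ * Pool.Agent.W245.EB.zt (e i).L ((e i).point (m.1.2 i)) +
          (e i).ρ * (e i).point (m.1.2 i) =
        (e i).σ * zetaW (e i).L ((e i).point (m.1.2 i)) + (e i).ρ * (e i).point (m.1.2 i)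
      rw [h5]
  rw [he] at hF4
  exact hF4

end Pool.Agent.Results.MP_4b482e_nt.RandomPoints
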