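import Mathlib
import Pool.Agent.Run7.h643.MW.MixU
import Pool.Agent.R351.GD.S.AllW
import Pool.Agent.Y916.Sl.Lim

/-!
# Generalised logarithms on several generalised Jacobians, chosen one after the other

A system is a finite family of pairs of polynomials `F_a`, `q_a` with primitives `Φ_(a,j)` of the differentials
`x^j dx / (q_a √F_a)`, `j < deg F_a - 1 + deg q_a`: integrals of the three kinds on the curve `C_a : y² = F_a(x)`, with
logarithmic poles over the zeros of `q_a`. Up to constants they are the components of the generalised logarithm of the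
point `R_x` of the generalised Jacobian `G_a` of `C_a` (an extension of the Jacobian by a torus of dimension `deg q_a`)
defined by `(x, √F_a(x)) - ∞`. The constants `κ` of the invariant differentials (`2 j + 2 < deg F_a + 2 deg q_a`) are the
values of the primitives at `∞`.

Let `t` systems be given; the same curve may occur in several of them, and there may be any relations between them. We
choose points in `t` steps. In step `j` the system number `j` is used; we are given an algebraic number `ξ_j` of degree at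
most `m` and of height at most `|ξ_j|^A`, and a bound `H_j` with `|ξ_j| ≥ (H_j + 2)^((δ + 2)^C)`. Both may depend on all
choices made before, so the windows `ξ_j + 1, …, ξ_j + H_j` may be in any position to each other. We choose `r_j` points
`x = ξ_j + n` in this window. In step `j` (`j = 0, …, t - 1`) at most `τ + 1 + ρ + ∑_(i<j) r_i d_i` numbers `n` have to be
avoided, which depend only on the earlier choices; here `ρ` is the transcendence degree of a field of fixed constants
(the periods, `κ` and `2πi`), `τ` the number of further arbitrary constants, and `d_i` the number of integrals of the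
system `i` (including the logarithm). Then between the generalised logarithms of all points `R_x`, along any paths, and
all `log x`, there is no relation of degree at most `δ` over number fields of degree at most `δ` and over the constants.

For `t = 1` this is the starting result `GrowingDegreeWindows` of this problem, with the same number of exceptions. The
proof uses the values at algebraic points (`Pool.Agent.R351.GD.InpE`, `LinkU`) of the starting library, and the passage
from one window to the next, in which the earlier numbers become constants.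
-/

set_option autoImplicit false

open Filter Topology Bornology

namespace Pool.Agent.Results.MP_4b482e_nt.SuccessiveWindows

/-- The indices `(a, j)`, `j < deg F_a - 1 + deg q_a`, of the differentials. -/
abbrev Idx {s : ℕ} (F q : Fin s → Polynomial ℤ) : Type := Σ a, Fin ((F a).natDegree - 1 + (q a).natDegree)

/-- The plane without the disc of radius `R` and the ray `- u [0, ∞)`. -/
def Domain (u : ℂ) (R : ℝ) : Set ℂ := {x | R < ‖x‖ ∧ x / u ∈ Complex.slitPlane}

/-- On the domain `S_a` is a continuous square root of `F_a` and `Φ_(a,j)` a primitive of `x^j / (q_a S_a)`. -/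
def Primitives {s : ℕ} (F q : Fin s → Polynomial ℤ) (u : ℂ) (R : ℝ) (S : Fin s → ℂ → ℂ) (Φ : Idx F q → ℂ → ℂ) : Prop :=
  ∀ x ∈ Domain u R, (∀ a, ContinuousAt (S a) x ∧ S a x ^ 2 = Polynomial.aeval x (F a)) ∧
    ∀ p : Idx F q, HasDerivAt (Φ p) (x ^ (p.2 : ℕ) / (Polynomial.aeval x (q p.1) * S p.1 x)) x

/-- Integral polynomials `F_a`, `q_a` with positive leading coefficients such that `F_a q_a` is squarefree, `deg F_a` is
odd, `deg F_a + 2 deg q_a ≥ 3` and no `F_a` is proportional to an integral translate of another `F_b`, with primitives of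
the differentials on a domain. -/
structure System where
  s : ℕ
  F : Fin s → Polynomial ℤ
  q : Fin s → Polynomial ℤ
  u : ℂ
  R : ℝ
  S : Fin s → ℂ → ℂ
  Φ : Idx F q → ℂ → ℂ
  squarefree : ∀ a, Squarefree ((F a * q a).map (Int.castRingHom ℚ))
  odd : ∀ a, Odd (F a).natDegree
  degree : ∀ a, 3 ≤ (F a).natDegree + 2 * (q a).natDegree
  positive : ∀ a, 0 < (F a).leadingCoeff ∧ 0 < (q a).leadingCoeff
  distinct : ∀ a b, a ≠ b → ∀ h c₁ c₂ : ℤ, c₁ ≠ 0 → c₂ ≠ 0 →
    Polynomial.C c₁ * F a ≠ Polynomial.C c₂ * (F b).comp (Polynomial.X + Polynomial.C h)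
  nonzero : u ≠ 0
  primitives : Primitives F q u R S Φ

/-- The integrals of a system, and the logarithm. -/
abbrev System.Integrals (X : System) : Type := Idx X.F X.q ⊕ Unit

/-- The numbers `Φ_(a,j)(x)` and `log x`. -/
noncomputable def System.number (X : System) (x : ℂ) : X.Integrals → ℂ
  | Sum.inl p => X.Φ p x
  | Sum.inr _ => Complex.log x

/-- The choices: `r i` integers in the window number `i`. -/
abbrev Choices {t : ℕ} (r : Fin t → ℕ) : Type := ∀ i : Fin t, Fin (r i) → ℕ

/-- Let systems `X_j`, `j < t`, be given. There are numbers `κ`, equal to the limits at infinity of the primitives which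
converge, such that for every finite family `c` of numbers which contains all the `κ` and `2πi` and all `r_j`, `m`, `A`,
`τ` there is `C` such that for all `δ`, all `w_1, …, w_τ ∈ ℂ` and all functions `ξ_j`, `H_j` of the choices `n_i`, `i < j`,
there are sets `T_j`, functions of the same choices, of at most `τ + 1 + ∑_(i<j) r_i d_i + trdeg ℚ(c)` integers with this
property: let `n` be choices such that for all `j` the number `ξ_j` is a root of a nonzero integral polynomial of degree
at most `m` with coefficients at most `|ξ_j|^A`, `|ξ_j| ≥ (H_j + 2)^((δ + 2)^C)`, the `n_(j,i)` are distinct integers in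
`[1, H_j]` outside `T_j`, and the `ξ_j + n_(j,i)` are in the domain; let `K` be a number field of degree at most `δ`, let
`y` consist of nonzero `K`-multiples of the numbers at all the `ξ_j + n_(j,i)` plus elements of
`K + ∑ K w_k + ∑ K c_k`, and let `P` be a polynomial over `K` of degree at most `δ` with `P(w, c, y) = 0`; then
`P(w, c, Y) = 0` identically in `Y`. -/
theorem result {t : ℕ} (X : Fin t → System) :
    ∃ κ : ∀ j, Idx (X j).F (X j).q → ℂ,
      (∀ j p, 2 * (p.2 : ℕ) + 2 < ((X j).F p.1).natDegree + 2 * ((X j).q p.1).natDegree →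
        Tendsto ((X j).Φ p) (cobounded ℂ ⊓ 𝓟 {x : ℂ | x / (X j).u ∈ Complex.slitPlane}) (𝓝 (κ j p))) ∧
      ∀ (υ : Type) [Fintype υ] (c : υ → ℂ), (∀ j, Set.range (κ j) ⊆ Set.range c) →
      2 * Real.pi * Complex.I ∈ Set.range c →
      ∀ (r : Fin t → ℕ) (m A τ : ℕ), ∃ C : ℕ, ∀ (δ : ℕ) (w : Fin τ → ℂ) (H : Fin t → Choices r → ℕ)
        (ξ : Fin t → Choices r → ℂ),
      (∀ j n n', (∀ i, i < j → n i = n' i) → H j n = H j n' ∧ ξ j n = ξ j n') →
      ∃ T : Fin t → Choices r → Finset ℕ,
        (∀ j n, ((T j n).card : Cardinal) ≤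
          ((τ + 1 + ∑ i ∈ Finset.Iio j, r i * Fintype.card (X i).Integrals : ℕ) : Cardinal) +
            Algebra.trdeg ℚ (IntermediateField.adjoin ℚ (Set.range c))) ∧
        (∀ j n n', (∀ i, i < j → n i = n' i) → T j n = T j n') ∧
        ∀ n : Choices r, (∀ j, ((H j n : ℝ) + 2) ^ ((δ + 2) ^ C) ≤ ‖ξ j n‖) →
          (∀ j, ∃ p : Polynomial ℤ, p ≠ 0 ∧ p.natDegree ≤ m ∧ (∀ l, |(p.coeff l : ℝ)| ≤ ‖ξ j n‖ ^ A) ∧
            Polynomial.aeval (ξ j n) p = 0) →
          (∀ j, Function.Injective (n j)) →
          (∀ j i, 1 ≤ n j i ∧ n j i ≤ H j n ∧ n j i ∉ T j n ∧ ξ j n + n j i ∈ Domain (X j).u (X j).R) →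
          ∀ K : IntermediateField ℚ ℂ, FiniteDimensional ℚ K → Module.finrank ℚ K ≤ δ →
          ∀ y : ∀ j, Fin (r j) × (X j).Integrals → ℂ,
            (∀ j p, ∃ b : K, b ≠ 0 ∧ y j p - b * (X j).number (ξ j n + n j p.1) p.2 ∈
              Submodule.span K (insert 1 (Set.range (Sum.elim w c)))) →
          ∀ P : MvPolynomial ((Fin τ ⊕ υ) ⊕ (Σ j, Fin (r j) × (X j).Integrals)) K, P.totalDegree ≤ δ →
            MvPolynomial.aeval (Sum.elim (Sum.elim w c) fun k : (Σ j, Fin (r j) × (X j).Integrals) => y k.1 k.2) P = 0 →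
            MvPolynomial.aeval (Sum.elim (fun k => MvPolynomial.C (Sum.elim w c k)) MvPolynomial.X) P =
              (0 : MvPolynomial (Σ j, Fin (r j) × (X j).Integrals) ℂ) := by
  have hG : ∀ j a, Pool.Agent.Y916.Sa.GoodP ((X j).F a) ((X j).q a) := by
    intro j a
    have h := (X j).squarefree a
    rw [Polynomial.map_mul, squarefree_mul_iff] at h
    exact ⟨h.2.1, (X j).odd a, ((X j).positive a).1, h.2.2, ((X j).positive a).2, h.1.isCoprime, (X j).degree a⟩
  have hD : ∀ j, Pool.Agent.Y916.Sa.Dist (X j).F := fun j a b hab h c₁ c₂ => (X j).distinct a b hab h c₁ c₂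
  have hlink := fun j => Pool.Agent.Y916.Sl.linkS' Pool.Agent.Y916.Sl.tP Pool.Agent.Y916.Sl.tQ (hG j) (X j).nonzero
    (R := (X j).R) (S := (X j).S) (Φ := (X j).Φ) (fun x hx1 hx2 => (X j).primitives x ⟨hx1, hx2⟩)
  choose κ hκ hlink using hlink
  refine ⟨κ, fun j p hp => ?_, ?_⟩
  · obtain ⟨R', hκ'⟩ := hκ j
    exact Pool.Agent.Y916.Sl.limS (hG j) hκ' p hp
  intro υ _ c hc hpi r m A τ
  choose E₁ hE₁ using fun j => hlink j υ c (hc j) hpi (m + 1)
  obtain ⟨E, ⟨C, hC⟩, hE⟩ := Pool.Agent.Run7.h643.MX.mixU t r (fun j => (X j).Integrals)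
    (fun j => Pool.Agent.Y916.Sl.vS (Pool.Agent.Y916.Sa.PP (X j).F (X j).q) (Pool.Agent.Y916.Sa.mm (X j).F (X j).q))
    (fun j => Pool.Agent.R351.GD.inpE_s (hG j) (hD j)) (fun j => Pool.Agent.Y916.Sl.xP (X j).F (X j).q (X j).Φ)
    (fun j => Pool.Agent.Y916.Sl.DmS (X j).u (X j).R) c (m + 1) (by omega) _ E₁ hE₁ τ A
  refine ⟨C, fun δ w H ξ hdep => ?_⟩
  obtain ⟨T, hT1, hT2, hT3⟩ := hE δ w H ξ hdep
  refine ⟨T, hT1, hT2, fun n hξ hb hinj hn K hK hKd y hy P hPd hP0 => ?_⟩
  refine hT3 n (fun j => (pow_le_pow_right₀ (by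
    have : (0 : ℝ) ≤ H j n := Nat.cast_nonneg _
    linarith) (hC δ)).trans (hξ j)) (fun j => ?_) hinj hn K hK hKd y (fun j p => ?_) P hPd hP0
  · obtain ⟨p, h1, h2, h3, h4⟩ := hb j
    exact ⟨p, h1, h2.trans (Nat.le_succ m), h3, h4⟩
  · obtain ⟨b, hb0, hb1⟩ := hy j p
    refine ⟨b, hb0, ?_⟩
    have h5 : (X j).number (ξ j n + n j p.1) p.2 = Pool.Agent.Y916.Sl.xP (X j).F (X j).q (X j).Φ (ξ j n + n j p.1) p.2 := by
      rcases p with ⟨i, p | p⟩ <;> rfl
    rw [h5] at hb1
    exact hb1

end Pool.Agent.Results.MP_4b482e_nt.SuccessiveWindows
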